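import Mathlib

/-! Project EX (MP_e59a69_co): 1/2-flow-pairs in cubic expanders of large girth.
Statements of the parts. -/

set_option autoImplicit false

namespace Pool.Agent.N404.EX

open Finset Classical

/-- The cubic graph `G` is the union of the perfect matching `M` (an involution) and of the
circuits of the permutation `σ`. -/
def Dec {V : Type} (G : SimpleGraph V) (σ : Equiv.Perm V) (M : V → V) : Prop :=
  (∀ v, M (M v) = v) ∧ (∀ u v, G.Adj u v ↔ v = M u ∨ v = σ u ∨ v = σ.symm u) ∧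
    ∀ v, M v ≠ σ v ∧ M v ≠ σ.symm v ∧ σ v ≠ σ.symm v

/-- Every cut of `G` has at least two edges. -/
def Bridgeless {V : Type} [Fintype V] (G : SimpleGraph V) : Prop :=
  ∀ S : Finset V, S.Nonempty → S ≠ univ → 2 ≤ ∑ a ∈ S, ∑ b ∈ Sᶜ, if G.Adj a b then 1 else 0

/-- Number of the edges leaving `S`. -/
noncomputable def bd {V : Type} [Fintype V] (G : SimpleGraph V) (S : Finset V) : ℕ :=
  ∑ a ∈ S, ∑ b ∈ Sᶜ, if G.Adj a b then 1 else 0

/-- `β` matches all vertices outside `X` by edges of the circuits of `σ`. -/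
def NearMatch {V : Type} (σ : Equiv.Perm V) (β : V → V) (X : Finset V) : Prop :=
  (∀ v, β (β v) = v) ∧ (∀ v ∈ X, β v = v) ∧ ∀ v, v ∉ X → β v = σ v ∨ β v = σ.symm v

/-- `ε` is a 2-colouring of the graph with the edges of `M` and `β`. -/
def Sgn {V : Type} (M β : V → V) (ε : V → ℤ) : Prop :=
  (∀ v, ε v = 1 ∨ ε v = -1) ∧ (∀ v, ε (M v) = -ε v) ∧ ∀ v, β v ≠ v → ε (β v) = -ε v

/-- Exactly one vertex on every odd circuit of `σ`. -/
def OneOnOdd {V : Type} (σ : Equiv.Perm V) (X : Finset V) : Prop :=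
  (∀ v, Odd (Function.minimalPeriod σ v) → ∃! x, x ∈ X ∧ σ.SameCycle v x) ∧
    ∀ x ∈ X, Odd (Function.minimalPeriod σ x)

/-- (PERM) The complement of a perfect matching in a cubic graph is a permutation. -/
def S_PERM : Prop :=
  ∀ (V : Type) [Fintype V] (G : SimpleGraph V), (∀ v, G.degree v = 3) → ∀ M : V → V,
    (∀ v, G.Adj v (M v)) → (∀ v, M (M v) = v) → ∃ σ : Equiv.Perm V, Dec G σ M

/-- (CYC) The circuits of `σ` are cycles of `G`. -/
def S_CYC : Prop :=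
  ∀ (V : Type) [Fintype V] (G : SimpleGraph V) (σ : Equiv.Perm V) (M : V → V), Dec G σ M →
    ∀ v, ∃ p : G.Walk v v, p.IsCycle ∧ p.length = Function.minimalPeriod σ v

/-- (MATCH) Alternating edges of the circuits. -/
def S_MATCH : Prop :=
  ∀ (V : Type) [Fintype V] (σ : Equiv.Perm V) (X : Finset V), (∀ v, σ v ≠ v) → OneOnOdd σ X →
    ∃ β : V → V, NearMatch σ β X

/-- (EPS) The union of two matchings is bipartite. -/
def S_EPS : Prop :=
  ∀ (V : Type) [Fintype V] (M β : V → V), (∀ v, M (M v) = v) → (∀ v, M v ≠ v) →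
    (∀ v, β (β v) = v) → ∃ ε : V → ℤ, Sgn M β ε

/-- (FLOW) The integral supply-demand theorem. -/
def S_FLOW : Prop :=
  ∀ (V : Type) [Fintype V] (k : V → V → ℕ) (b : V → ℤ), ∑ u, b u = 0 →
    (∀ S : Finset V, ∑ u ∈ S, b u ≤ ∑ u ∈ S, ∑ v ∈ Sᶜ, (k u v : ℤ)) →
    ∃ t : V → V → ℤ, (∀ u v, t u v = -t v u) ∧ (∀ u v, t u v ≤ k u v) ∧ ∀ u, ∑ v, t u v = b u

/-- Capacities of the correction: one on the circuits, one on `M` in the direction of `ε`. -/
noncomputable def cap {V : Type} (σ : Equiv.Perm V) (M : V → V) (ε : V → ℤ) (u v : V) : ℕ :=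
  (if v = σ u ∨ v = σ.symm u then 1 else 0) + (if v = M u ∧ ε u = 1 then 1 else 0)

/-- (CUT) The cut condition. -/
def S_CUT : Prop :=
  ∀ (V : Type) [Fintype V] (G : SimpleGraph V) (σ : Equiv.Perm V) (M β : V → V) (ε : V → ℤ)
    (X : Finset V) (η : ℝ) (ρ g : ℕ), G.Connected → Dec G σ M → 0 < η →
    (∀ S : Finset V, 2 * S.card ≤ Fintype.card V → η * S.card ≤ bd G S) →
    NearMatch σ β X → Sgn M β ε → (∀ x ∈ X, g ≤ Function.minimalPeriod σ x) →
    (∀ x ∈ X, ∀ y ∈ X, x ≠ y → 2 * ρ + 1 ≤ G.dist x y) → 5 ≤ η * ρ → 5 ≤ η * g →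
    ∀ U : Finset V, ∑ u ∈ U, (if u ∈ X then -2 * ε u else 0) ≤
      ∑ u ∈ U, ∑ v ∈ Uᶜ, (cap σ M ε u v : ℤ)

/-- (SEP) One vertex on every odd circuit, pairwise far apart. -/
def S_SEP : Prop :=
  ∀ ρ : ℕ, ∃ g : ℕ, ∀ (V : Type) [Fintype V] (G : SimpleGraph V), G.Connected →
    (∀ v, G.degree v = 3) → ∀ σ : Equiv.Perm V,
    (∀ v, Odd (Function.minimalPeriod σ v) → g ≤ Function.minimalPeriod σ v) →
    ∃ X : Finset V, OneOnOdd σ X ∧ ∀ x ∈ X, ∀ y ∈ X, x ≠ y → 2 * ρ + 1 ≤ G.dist x y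

/-- (PET) Petersen's theorem. -/
def S_PET : Prop :=
  ∀ (V : Type) [Fintype V] (G : SimpleGraph V), G.Connected → (∀ v, G.degree v = 3) →
    Bridgeless G → ∃ M : V → V, (∀ v, G.Adj v (M v)) ∧ ∀ v, M (M v) = v

end Pool.Agent.N404.EX
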